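import Pool.Agent.H8.PL.Targets

/-!
# The rotation of the pillowcase
-/

set_option autoImplicit false

namespace Pool.Agent.H63.PL

open Pool.Agent.H8.PL

theorem dir_add_two (k : ZMod 4) : dir (k + 2) = -dir k := by
  revert k
  decide

theorem dir_sum (k : ZMod 4) :
    dir k + dir (k + 3) + dir (k + 3 + 3) + dir (k + 3 + 3 + 3) = 0 := by
  revert k
  decide

theorem cg_add {W H : ℕ} {p q : ℤ × ℤ} (h : Cg W H p q) (u : ℤ × ℤ) : Cg W H (p + u) (q + u) := by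
  unfold Cg at *
  simpa using h

theorem cg_refl (W H : ℕ) (p : ℤ × ℤ) : Cg W H p p := by
  unfold Cg
  simp

theorem cg_symm {W H : ℕ} {p q : ℤ × ℤ} (h : Cg W H p q) : Cg W H q p := by
  unfold Cg at *
  exact ⟨(dvd_sub_comm).1 h.1, (dvd_sub_comm).1 h.2⟩

instance finite_PV (W H : ℕ) : Finite (PV W H) := by
  refine Finite.of_injective (β := Bool × Fin W × Fin H)
    (fun p => (p.1.1, ⟨p.1.2.1, p.2.1⟩, ⟨p.1.2.2, p.2.2.1⟩)) ?_
  rintro ⟨⟨a, b, c⟩, h⟩ ⟨⟨a', b', c'⟩, h'⟩ e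
  simp only [Prod.mk.injEq, Fin.mk.injEq] at e
  obtain ⟨rfl, rfl, rfl⟩ := e
  rfl

/-- the vertex below the point `p` -/
def vp (W H : ℕ) (hFA : Z_FA) (hW : 4 ≤ W) (hH : 4 ≤ H) (p : ℤ × ℤ) : PV W H :=
  ⟨fold0 W H p, (hFA W H hW hH).1 p⟩

theorem pf_pr (hTF : Z_TF) (hFA : Z_FA) (hFN : Z_FN) (hFD : Z_FD) : Z_PR := by
  intro W H hW hH
  set v := vp W H hFA hW hH with hv
  have hv1 : ∀ p, (v p).1 = fold0 W H p := fun p => rfl
  have hiff : ∀ p q, v p = v q ↔ Cg W H p q ∨ Cg W H p (-q) := by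
    intro p q
    rw [← (hFA W H hW hH).2.1 p q]
    exact ⟨fun h => congrArg Subtype.val h, fun h => Subtype.ext h⟩
  have h1 : ∀ p q, Cg W H p q → v p = v q := fun p q h => (hiff p q).2 (Or.inl h)
  have h2 : ∀ p q, Cg W H p (-q) → v p = v q := fun p q h => (hiff p q).2 (Or.inr h)
  have hadj : ∀ p k, (PG W H).Adj (v p) (v (p + dir k)) := fun p k =>
    (hFN W H hW hH p (v p) (v (p + dir k)) (hv1 p).symm).2 ⟨k, rfl⟩
  have hFD' : ∀ p k k', v (p + dir k) = v (p + dir k') → k = k' ∨ (k' = k + 2 ∧ Cg W H p (-p)) :=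
    fun p k k' h => hFD W H hW hH p k k' (congrArg Subtype.val h)
  let π : (ℤ × ℤ) × ZMod 4 → (PG W H).Dart := fun d => ⟨(v d.1, v (d.1 + dir d.2)), hadj d.1 d.2⟩
  let ρ : (ℤ × ℤ) × ZMod 4 → (ℤ × ℤ) × ZMod 4 := fun d => (d.1, d.2 + 1)
  let rv : (ℤ × ℤ) × ZMod 4 → (ℤ × ℤ) × ZMod 4 := fun d => (d.1 + dir d.2, d.2 + 2)
  have hπ : ∀ d d', π d = π d' ↔ v d.1 = v d'.1 ∧ v (d.1 + dir d.2) = v (d'.1 + dir d'.2) := by
    intro d d'
    rw [SimpleGraph.Dart.ext_iff]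
    exact Prod.mk.injEq _ _ _ _ ▸ Iff.rfl
  -- moving along a congruence
  have m1 : ∀ p q k, Cg W H p q → v (p + dir k) = v (q + dir k) := fun p q k h =>
    h1 _ _ (cg_add h _)
  have m2 : ∀ p q k, Cg W H p (-q) → v (p + dir (k + 2)) = v (q + dir k) := by
    intro p q k h
    refine h2 _ _ ?_
    have h3 := cg_add h (-dir k)
    rwa [dir_add_two, neg_add]
  refine hTF (PV W H) (PG W H) ((ℤ × ℤ) × ZMod 4) π ρ rv ?_ ?_ ?_ ?_ ?_ ?_
  · intro d
    obtain ⟨p, hp⟩ := (hFA W H hW hH).2.2 d.fst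
    obtain ⟨k, hk⟩ := (hFN W H hW hH p d.fst d.snd hp).1 d.adj
    refine ⟨(p, k), ?_⟩
    rw [SimpleGraph.Dart.ext_iff]
    exact Prod.ext (Subtype.ext hp) (Subtype.ext hk)
  · rintro ⟨p, k⟩
    rw [SimpleGraph.Dart.ext_iff]
    refine Prod.ext rfl ?_
    show v (p + dir k + dir (k + 2)) = v p
    rw [dir_add_two, add_neg_cancel_right]
  · rintro ⟨p, k⟩ ⟨p', k'⟩ h
    obtain ⟨h3, h4⟩ := (hπ _ _).1 h
    simp only at h3 h4
    refine (hπ _ _).2 ⟨h3, ?_⟩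
    show v (p + dir (k + 1)) = v (p' + dir (k' + 1))
    rcases (hiff p p').1 h3 with h5 | h5
    · rw [← m1 p p' k' h5] at h4
      rw [← m1 p p' (k' + 1) h5]
      rcases hFD' p k k' h4 with h6 | ⟨h6, h7⟩
      · rw [h6]
      · rw [h6]
        have h8 := m2 p p (k + 1) h7
        rw [← h8]
        congr 3
        ring
    · rw [← m2 p p' k' h5] at h4
      rw [← m2 p p' (k' + 1) h5]
      rcases hFD' p k (k' + 2) h4 with h6 | ⟨h6, h7⟩
      · rw [h6]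
        congr 3
        ring
      · have h9 : k' = k := add_right_cancel h6
        rw [h9]
        exact (m2 p p (k + 1) h7).symm
  · intro d
    rfl
  · rintro ⟨p, k⟩ ⟨p', k'⟩ h
    have hit : ∀ j : ℕ, ρ^[j] (p, k) = (p, k + j) := by
      intro j
      induction j with
      | zero => simp
      | succ j ih =>
        rw [Function.iterate_succ_apply', ih]
        show (p, k + j + 1) = _
        push_cast
        rw [add_assoc]
    have h3 : v p = v p' := h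
    have key : ∀ k'' : ZMod 4, ∃ j : ℕ, k + j = k'' := by
      intro k''
      refine ⟨(k'' - k).val, ?_⟩
      rw [ZMod.natCast_zmod_val]
      ring
    rcases (hiff p p').1 h3 with h5 | h5
    · obtain ⟨j, hj⟩ := key k'
      refine ⟨j, ?_⟩
      rw [hit, hj]
      exact (hπ _ _).2 ⟨h3, m1 p p' k' h5⟩
    · obtain ⟨j, hj⟩ := key (k' + 2)
      refine ⟨j, ?_⟩
      rw [hit, hj]
      exact (hπ _ _).2 ⟨h3, m2 p p' k' h5⟩
  · rintro ⟨p, k⟩
    have h3 : (fun d => ρ (rv d))^[4] (p, k) = (p, k) := by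
      show ((p + dir k + dir (k + 2 + 1) + dir (k + 2 + 1 + 2 + 1) +
        dir (k + 2 + 1 + 2 + 1 + 2 + 1), k + 2 + 1 + 2 + 1 + 2 + 1 + 2 + 1) :
          (ℤ × ℤ) × ZMod 4) = (p, k)
      refine Prod.ext ?_ ?_
      · have h4 := dir_sum k
        have e1 : k + 2 + 1 = k + 3 := by ring
        have e2 : k + 2 + 1 + 2 + 1 = k + 3 + 3 := by ring
        have e3 : k + 2 + 1 + 2 + 1 + 2 + 1 = k + 3 + 3 + 3 := by ring
        show p + dir k + dir (k + 2 + 1) + dir (k + 2 + 1 + 2 + 1) +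
          dir (k + 2 + 1 + 2 + 1 + 2 + 1) = p
        rw [e3, e2, e1]
        calc p + dir k + dir (k + 3) + dir (k + 3 + 3) + dir (k + 3 + 3 + 3)
            = p + (dir k + dir (k + 3) + dir (k + 3 + 3) + dir (k + 3 + 3 + 3)) := by abel
          _ = p := by rw [h4, add_zero]
      · show k + 2 + 1 + 2 + 1 + 2 + 1 + 2 + 1 = k
        revert k
        decide
    rw [h3]

end Pool.Agent.H63.PL
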