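import Pool.Agent.H47.PL.Targets

/-!
# Row FRE: the two bounds do not hold if `cost 2 ^ D` is small (helper63)
-/

set_option autoImplicit false

namespace Pool.Agent.H63.PL

open Finset Pool.Agent.H97.RK Pool.Agent.H47.PL

private theorem bl_mono {N n : ℕ} (a : ℕ) (h : N ≤ n) : bl N a ≤ bl n a := by
  unfold bl
  exact sum_le_sum fun i _ => Nat.choose_le_choose i h

private theorem bl_pos (n a : ℕ) : 1 ≤ bl n a := by
  unfold bl
  calc 1 = n.choose 0 := (Nat.choose_zero_right n).symm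
    _ ≤ _ := single_le_sum (f := fun i => n.choose i) (fun i _ => Nat.zero_le _)
        (mem_range.mpr (Nat.succ_pos a))

private theorem rle {x y : ℝ} (h : (2 : ℝ) ^ x ≤ (2 : ℝ) ^ y) : x ≤ y :=
  (Real.rpow_le_rpow_left_iff (by norm_num : (1 : ℝ) < 2)).mp h

private theorem rlt {x y : ℝ} (h : (2 : ℝ) ^ x < (2 : ℝ) ^ y) : x < y :=
  (Real.rpow_lt_rpow_left_iff (by norm_num : (1 : ℝ) < 2)).mp h

private theorem rup {x y : ℝ} (h : x ≤ y) : (2 : ℝ) ^ x ≤ (2 : ℝ) ^ y :=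
  Real.rpow_le_rpow_of_exponent_le (by norm_num) h

private theorem radd (x y : ℝ) : (2 : ℝ) ^ (x + y) = (2 : ℝ) ^ x * (2 : ℝ) ^ y :=
  Real.rpow_add (by norm_num) x y

/-- `2 2 ^ N 2 ^ (N / 2) ≤ 3 ^ N` -/
private theorem num1 {N : ℕ} (h : 12 ≤ N) :
    2 * ((2 : ℝ) ^ N * (2 : ℝ) ^ ((1 / 2 : ℝ) * N)) ≤ (3 : ℝ) ^ N := by
  have h1 : ((2 : ℝ) ^ ((1 / 2 : ℝ) * N)) ^ 2 = 2 ^ N := by
    rw [← Real.rpow_natCast, ← Real.rpow_mul (by norm_num)]
    have : (1 / 2 : ℝ) * N * ((2 : ℕ) : ℝ) = N := by push_cast; ring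
    rw [this, Real.rpow_natCast]
  have h2 : (4 : ℝ) * 8 ^ N ≤ 9 ^ N := by
    obtain ⟨r, rfl⟩ := Nat.exists_eq_add_of_le h
    have h3 : (8 : ℝ) ^ r ≤ 9 ^ r := pow_le_pow_left₀ (by norm_num) (by norm_num) r
    rw [pow_add, pow_add]
    have h4 : (4 : ℝ) * 8 ^ 12 ≤ 9 ^ 12 := by norm_num
    calc (4 : ℝ) * (8 ^ 12 * 8 ^ r) = (4 * 8 ^ 12) * 8 ^ r := by ring
      _ ≤ 9 ^ 12 * 9 ^ r := mul_le_mul h4 h3 (by positivity) (by positivity)
  refine le_of_sq_le_sq ?_ (by positivity)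
  calc (2 * ((2 : ℝ) ^ N * (2 : ℝ) ^ ((1 / 2 : ℝ) * N))) ^ 2
      = 4 * ((2 ^ N) ^ 2 * ((2 : ℝ) ^ ((1 / 2 : ℝ) * N)) ^ 2) := by ring
    _ = 4 * 8 ^ N := by
        rw [h1]
        have : (8 : ℝ) ^ N = (2 ^ N) ^ 2 * 2 ^ N := by
          rw [show (8 : ℝ) = 2 ^ 3 by norm_num, ← pow_mul, ← pow_mul, ← pow_add]
          congr 1
          ring
        rw [this]
    _ ≤ 9 ^ N := h2
    _ = (3 ^ N) ^ 2 := by
        rw [show (9 : ℝ) = 3 ^ 2 by norm_num, ← pow_mul, ← pow_mul, mul_comm]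

/-- `2 ^ N ≤ ((3 / 2) ^ N) ^ (12 / 7)` -/
private theorem num2 (N : ℕ) : (2 : ℝ) ^ N ≤ ((3 / 2 : ℝ) ^ N) ^ (12 / 7 : ℝ) := by
  have h1 : (2 : ℝ) ≤ (3 / 2 : ℝ) ^ (12 / 7 : ℝ) := by
    have h2 : ((2 : ℝ) ^ (7 : ℕ)) ≤ (3 / 2 : ℝ) ^ (12 : ℕ) := by norm_num
    have h3 := Real.rpow_le_rpow (by positivity) h2 (by norm_num : (0 : ℝ) ≤ 1 / 7)
    rw [← Real.rpow_natCast, ← Real.rpow_natCast, ← Real.rpow_mul (by norm_num),
      ← Real.rpow_mul (by norm_num)] at h3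
    norm_num at h3
    exact h3
  calc (2 : ℝ) ^ N ≤ ((3 / 2 : ℝ) ^ (12 / 7 : ℝ)) ^ N := pow_le_pow_left₀ (by norm_num) h1 N
    _ = _ := by
        rw [← Real.rpow_natCast, ← Real.rpow_natCast, ← Real.rpow_mul (by norm_num),
          ← Real.rpow_mul (by norm_num), mul_comm]

theorem pf_FRE (hBLB : T_BLB) : T_FRE := by
  intro η hη hη1
  obtain ⟨ξ, hξ, hbl⟩ := hBLB (1 / 2) (by norm_num)
  have hm0 : 0 < min (1 / 4) (ξ / 2) := lt_min (by norm_num) (by positivity)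
  have hm4 : min (1 / 4) (ξ / 2) ≤ 1 / 4 := min_le_left _ _
  have hmx : min (1 / 4) (ξ / 2) ≤ ξ / 2 := min_le_right _ _
  obtain ⟨ε, hε⟩ : ∃ ε, ε = η * min (1 / 4) (ξ / 2) := ⟨_, rfl⟩
  have hε0 : 0 < ε := by rw [hε]; exact mul_pos hη hm0
  have hε4 : 4 * ε ≤ η := by
    have := mul_le_mul_of_nonneg_left hm4 hη.le
    rw [← hε] at this
    linarith
  have hεx : 2 * ε ≤ η * ξ := by
    have := mul_le_mul_of_nonneg_left hmx hη.le
    rw [← hε] at this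
    linarith
  refine ⟨ε, hε0, by linarith, ⌈16 / η⌉₊, ?_⟩
  intro n D d e t s R ρ hK hρ hs hed hte h1 h2 h3
  have hn : 16 ≤ η * n := by
    have h : (16 / η : ℝ) ≤ n := (Nat.le_ceil _).trans (by exact_mod_cast hK)
    rw [div_le_iff₀ hη] at h
    linarith
  have hn0 : (0 : ℝ) ≤ n := Nat.cast_nonneg n
  have hs1 : (1 : ℝ) ≤ s := by exact_mod_cast hs
  have hεn : 0 ≤ ε * n := mul_nonneg hε0.le hn0
  have hε4n : 4 * (ε * n) ≤ η * n := by
    have := mul_le_mul_of_nonneg_right hε4 hn0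
    linarith
  have hcost : 1 ≤ cost n s ρ := by
    unfold cost
    refine le_min ?_ (Real.one_le_rpow hs1 (by norm_num))
    have h : (1 : ℝ) ≤ (2 : ℝ) ^ (ρ * n) :=
      Real.one_le_rpow (by norm_num) (mul_nonneg hρ hn0)
    calc (1 : ℝ) = 1 * 1 := (one_mul 1).symm
      _ ≤ s * (2 : ℝ) ^ (ρ * n) := mul_le_mul hs1 h (by norm_num) (by linarith)
  have hb : (1 : ℝ) ≤ bl n R := by exact_mod_cast bl_pos n R
  have h3d : 3 * (d : ℝ) ≤ ε * n := by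
    have h : (2 : ℝ) ^ ((3 * d : ℕ) : ℝ) ≤ (2 : ℝ) ^ (ε * n) := by
      rw [Real.rpow_natCast]
      calc (2 : ℝ) ^ (3 * d) = (2 : ℝ) ^ (3 * d) * 1 := (mul_one _).symm
        _ ≤ (2 : ℝ) ^ (3 * d) * bl n R := mul_le_mul_of_nonneg_left hb (by positivity)
        _ ≤ _ := h1
    have h' := rle h
    push_cast at h'
    exact h'
  have he2 : 2 * (e : ℝ) ≤ d := by exact_mod_cast hed
  have hDn : (D : ℝ) + η * n < n := by
    have h : (2 : ℝ) ^ ((D : ℝ) + η * n) < (2 : ℝ) ^ ((n : ℕ) : ℝ) := by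
      rw [Real.rpow_natCast, radd, Real.rpow_natCast]
      calc (2 : ℝ) ^ D * (2 : ℝ) ^ (η * n) = 1 * (2 : ℝ) ^ D * (2 : ℝ) ^ (η * n) := by
            rw [one_mul]
        _ ≤ cost n s ρ * (2 : ℝ) ^ D * (2 : ℝ) ^ (η * n) := by
            refine mul_le_mul_of_nonneg_right ?_ (by positivity)
            exact mul_le_mul_of_nonneg_right hcost (by positivity)
        _ < _ := h3
    exact rlt h
  refine ⟨?_, by linarith, ?_⟩
  · have h : ((D + e + d : ℕ) : ℝ) ≤ (n : ℝ) := by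
      push_cast
      linarith
    exact_mod_cast h
  intro S hS hN1 N hN hNn hN2
  have hSs : (S : ℝ) ≤ s := by exact_mod_cast hS
  have hS0 : (0 : ℝ) ≤ S := Nat.cast_nonneg S
  have hN1' : (2 : ℝ) ^ n ≤ S * (2 ^ (D + e + ⌊ρ * n⌋₊ + 3 * d) * bl n R) := by
    exact_mod_cast hN1
  have hN2' : (3 : ℝ) ^ N ≤ S * (2 ^ N * bl N (d + 2 * t) * bl N t) +
      2 ^ N * bl N (e + d) := by
    exact_mod_cast hN2
  have hfin : ∀ x c : ℝ, 0 < c → c = cost n s ρ → x ≤ η * n →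
      (2 : ℝ) ^ n ≤ c * (2 : ℝ) ^ D * (2 : ℝ) ^ x → False := by
    intro x c hc0 hc hx h
    have h4 : c * (2 : ℝ) ^ D * (2 : ℝ) ^ x ≤ cost n s ρ * (2 : ℝ) ^ D * (2 : ℝ) ^ (η * n) := by
      rw [← hc]
      exact mul_le_mul_of_nonneg_left (rup hx) (by positivity)
    linarith
  rcases min_choice ((s : ℝ) * (2 : ℝ) ^ (ρ * n)) ((s : ℝ) ^ (12 / 7 : ℝ)) with hc | hc
  · -- the first bound
    refine hfin (e + ε * n) (s * (2 : ℝ) ^ (ρ * n)) (by positivity) hc.symm (by linarith) ?_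
    have h4 : (2 : ℝ) ^ ⌊ρ * n⌋₊ ≤ (2 : ℝ) ^ (ρ * n) := by
      rw [← Real.rpow_natCast]
      exact rup (Nat.floor_le (mul_nonneg hρ hn0))
    calc (2 : ℝ) ^ n ≤ S * (2 ^ (D + e + ⌊ρ * n⌋₊ + 3 * d) * bl n R) := hN1'
      _ = S * (2 ^ D * 2 ^ e * 2 ^ ⌊ρ * n⌋₊) * (2 ^ (3 * d) * bl n R) := by
          rw [pow_add, pow_add, pow_add]
          ring
      _ ≤ S * (2 ^ D * 2 ^ e * 2 ^ ⌊ρ * n⌋₊) * (2 : ℝ) ^ (ε * n) :=
          mul_le_mul_of_nonneg_left h1 (by positivity)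
      _ ≤ s * (2 ^ D * 2 ^ e * (2 : ℝ) ^ (ρ * n)) * (2 : ℝ) ^ (ε * n) := by
          refine mul_le_mul_of_nonneg_right ?_ (by positivity)
          refine mul_le_mul hSs ?_ (by positivity) (by positivity)
          exact mul_le_mul_of_nonneg_left h4 (by positivity)
      _ = _ := by
          rw [radd, Real.rpow_natCast]
          ring
  · -- the second bound
    have hNr : (n : ℝ) ≤ D + e + N := by exact_mod_cast hN
    have hNb : 3 / 4 * (η * n) ≤ N := by linarith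
    have hN12 : 12 ≤ N := by
      have h : (12 : ℝ) ≤ N := by linarith
      exact_mod_cast h
    have hed' : ((e + d : ℕ) : ℝ) ≤ ξ * N := by
      have h4 : ε * n ≤ ξ * (η * n) / 2 := by
        have := mul_le_mul_of_nonneg_right hεx hn0
        linarith
      have h5 : ξ * (3 / 4 * (η * n)) ≤ ξ * N := mul_le_mul_of_nonneg_left hNb hξ.le
      have h6 : 0 ≤ ξ * (η * n) := by positivity
      push_cast
      linarith
    have h4 : (2 : ℝ) ^ N * bl N (e + d) ≤ 3 ^ N / 2 := by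
      have h5 := hbl N (e + d) hed'
      have h6 := num1 hN12
      have h7 : (2 : ℝ) ^ N * bl N (e + d) ≤ (2 : ℝ) ^ N * (2 : ℝ) ^ ((1 / 2 : ℝ) * N) :=
        mul_le_mul_of_nonneg_left h5 (by positivity)
      linarith
    have hb1 : (bl N (d + 2 * t) : ℝ) ≤ bl n (d + 2 * t) := by exact_mod_cast bl_mono _ hNn
    have hb2 : (bl N t : ℝ) ≤ bl n t := by exact_mod_cast bl_mono _ hNn
    have h5 : (S : ℝ) * (2 ^ N * bl N (d + 2 * t) * bl N t) ≤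
        s * 2 ^ N * (2 : ℝ) ^ (ε * n) / 2 := by
      have h6 : (bl N (d + 2 * t) : ℝ) * bl N t ≤ (2 : ℝ) ^ (ε * n) / 2 := by
        have h7 : (bl N (d + 2 * t) : ℝ) * bl N t ≤ bl n (d + 2 * t) * bl n t :=
          mul_le_mul hb1 hb2 (Nat.cast_nonneg _) (Nat.cast_nonneg _)
        have h8 : 2 * ((bl n (d + 2 * t) : ℝ) * bl n t) ≤ (2 : ℝ) ^ (ε * n) := by
          rw [← mul_assoc]
          exact h2
        linarith
      calc (S : ℝ) * (2 ^ N * bl N (d + 2 * t) * bl N t)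
          = S * 2 ^ N * (bl N (d + 2 * t) * bl N t) := by ring
        _ ≤ s * 2 ^ N * ((2 : ℝ) ^ (ε * n) / 2) := by
            refine mul_le_mul ?_ h6 (by positivity) (by positivity)
            exact mul_le_mul_of_nonneg_right hSs (by positivity)
        _ = _ := by ring
    have h6 : (3 : ℝ) ^ N ≤ s * 2 ^ N * (2 : ℝ) ^ (ε * n) := by linarith
    have h7 : (3 / 2 : ℝ) ^ N ≤ s * (2 : ℝ) ^ (ε * n) := by
      rw [div_pow, div_le_iff₀ (by positivity)]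
      linarith
    have h8 : (2 : ℝ) ^ N ≤ (s : ℝ) ^ (12 / 7 : ℝ) * (2 : ℝ) ^ (12 / 7 * (ε * n)) := by
      have h9 := Real.rpow_le_rpow (by positivity) h7 (by norm_num : (0 : ℝ) ≤ 12 / 7)
      rw [Real.mul_rpow (by positivity) (by positivity), ← Real.rpow_mul (by norm_num),
        mul_comm (ε * n) (12 / 7 : ℝ)] at h9
      exact (num2 N).trans h9
    refine hfin (e + 12 / 7 * (ε * n)) ((s : ℝ) ^ (12 / 7 : ℝ)) (by positivity) hc.symm
      (by linarith) ?_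
    calc (2 : ℝ) ^ n ≤ 2 ^ (D + e + N) := pow_le_pow_right₀ (by norm_num) hN
      _ = 2 ^ D * 2 ^ e * 2 ^ N := by rw [pow_add, pow_add]
      _ ≤ 2 ^ D * 2 ^ e * ((s : ℝ) ^ (12 / 7 : ℝ) * (2 : ℝ) ^ (12 / 7 * (ε * n))) :=
          mul_le_mul_of_nonneg_left h8 (by positivity)
      _ = _ := by
          rw [radd, Real.rpow_natCast]
          ring

end Pool.Agent.H63.PL
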