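import Pool.Agent.H47.PL.Targets

/-!
# Row KEY: the probability that a walk is right (helper63)
-/

set_option autoImplicit false

namespace Pool.Agent.H63.PL

open Finset Pool.Agent.H97.RK Pool.Agent.H47.PL

private theorem con_insert' {n : ℕ} {L : Finset (Fin n × Bool)} {v : Fin n} {b : Bool} (h : Con L)
    (hv : (v, !b) ∉ L) : Con (insert (v, b) L) := by
  intro u c hc hc'
  rw [mem_insert] at hc hc'
  rcases hc with hc | hc
  · rw [Prod.mk.injEq] at hc
    obtain ⟨rfl, rfl⟩ := hc
    rcases hc' with hc' | hc'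
    · rw [Prod.mk.injEq] at hc'
      cases c <;> simp at hc'
    · exact hv hc'
  · rcases hc' with hc' | hc'
    · rw [Prod.mk.injEq] at hc'
      obtain ⟨rfl, h2⟩ := hc'
      have h3 : c = !b := by rw [← h2, Bool.not_not]
      rw [h3] at hc
      exact hv hc
    · exact h u c hc hc'

/-- the number of the sign patterns -/
private theorem pat {n k m : ℕ} (g : Fin m → Fin k → Fin n) (Q : Finset (Fin m))
    (a : Fin m → Fin k → Bool) (σ : Fin n → Bool) :
    (univ.filter fun x : Fin m → Fin k → Bool => (∀ c ∈ Q, x c = a c) ∧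
      ∀ c, c ∉ Q → ∃ i, σ (g c i) = x c i).card * (2 ^ k - 1) ^ Q.card ≤ (2 ^ k - 1) ^ m := by
  classical
  let T : Fin m → Finset (Fin k → Bool) := fun c =>
    if c ∈ Q then {a c} else univ.filter fun y => ∃ i, σ (g c i) = y i
  have h1 : (univ.filter fun x : Fin m → Fin k → Bool => (∀ c ∈ Q, x c = a c) ∧
      ∀ c, c ∉ Q → ∃ i, σ (g c i) = x c i) ⊆ Fintype.piFinset T := by
    intro x hx
    rw [mem_filter] at hx
    rw [Fintype.mem_piFinset]
    intro c
    show x c ∈ if c ∈ Q then {a c} else univ.filter fun y => ∃ i, σ (g c i) = y i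
    by_cases hc : c ∈ Q
    · rw [if_pos hc, mem_singleton]
      exact hx.2.1 c hc
    · rw [if_neg hc, mem_filter]
      exact ⟨mem_univ _, hx.2.2 c hc⟩
  have h2 : ∀ c, c ∉ Q → (T c).card ≤ 2 ^ k - 1 := by
    intro c hc
    have e1 : T c = univ.filter fun y => ∃ i, σ (g c i) = y i := if_neg hc
    rw [e1]
    have e2 : (univ.filter fun y : Fin k → Bool => ∃ i, σ (g c i) = y i) ⊆
        univ.erase (fun i => !σ (g c i)) := by
      intro y hy
      rw [mem_filter] at hy
      rw [mem_erase]
      refine ⟨?_, mem_univ _⟩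
      rintro rfl
      obtain ⟨i, hi⟩ := hy.2
      have hi' : σ (g c i) = !σ (g c i) := hi
      cases h3 : σ (g c i) <;> rw [h3] at hi' <;> exact absurd hi' (by decide)
    refine (card_le_card e2).trans ?_
    rw [card_erase_of_mem (mem_univ _), card_univ, Fintype.card_fun, Fintype.card_bool,
      Fintype.card_fin]
  have h3 : ∀ c ∈ Q, (T c).card = 1 := by
    intro c hc
    have e1 : T c = {a c} := if_pos hc
    rw [e1, card_singleton]
  have h4 : ∏ c, (T c).card ≤ ∏ c, (if c ∈ Q then 1 else 2 ^ k - 1) := by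
    refine Finset.prod_le_prod' fun c _ => ?_
    by_cases hc : c ∈ Q
    · rw [if_pos hc, h3 c hc]
    · rw [if_neg hc]
      exact h2 c hc
  have h5 : (∏ c : Fin m, (if c ∈ Q then 1 else 2 ^ k - 1)) * (2 ^ k - 1) ^ Q.card =
      (2 ^ k - 1) ^ m := by
    rw [← Finset.prod_filter_mul_prod_filter_not univ (fun c => c ∈ Q)]
    have e1 : ∏ c ∈ univ.filter (fun c => c ∈ Q), (if c ∈ Q then 1 else 2 ^ k - 1) = 1 :=
      prod_eq_one fun c hc => if_pos (mem_filter.mp hc).2
    have e2 : ∏ c ∈ univ.filter (fun c => ¬ c ∈ Q), (if c ∈ Q then 1 else 2 ^ k - 1) =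
        (2 ^ k - 1) ^ (univ.filter (fun c => ¬ c ∈ Q)).card := by
      rw [← prod_const]
      exact prod_congr rfl fun c hc => if_neg (mem_filter.mp hc).2
    have e3 : (univ.filter (fun c => ¬ c ∈ Q)).card + Q.card = m := by
      have e4 := card_filter_add_card_filter_not (s := (univ : Finset (Fin m))) (fun c => c ∈ Q)
      rw [card_univ, Fintype.card_fin] at e4
      have e5 : univ.filter (fun c => c ∈ Q) = Q := by
        ext c
        simp
      rw [e5] at e4
      omega
    rw [e1, e2, one_mul, ← pow_add, e3]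
  calc _ ≤ (Fintype.piFinset T).card * (2 ^ k - 1) ^ Q.card :=
        Nat.mul_le_mul_right _ (card_le_card h1)
    _ = (∏ c, (T c).card) * (2 ^ k - 1) ^ Q.card := by rw [Fintype.card_piFinset]
    _ ≤ (∏ c : Fin m, (if c ∈ Q then 1 else 2 ^ k - 1)) * (2 ^ k - 1) ^ Q.card :=
        Nat.mul_le_mul_right _ h4
    _ = _ := h5

open Classical in
/-- the number of the extensions -/
private theorem ext {n : ℕ} {L : Finset (Fin n × Bool)} (hL : Con L) :
    (univ.filter fun σ : Fin n → Bool => Agr σ L).card * 2 ^ L.card ≤ 2 ^ n := by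
  classical
  let T : Fin n → Finset Bool := fun v => univ.filter fun b => ∀ c, (v, c) ∈ L → b = c
  have h1 : (univ.filter fun σ : Fin n → Bool => Agr σ L) ⊆ Fintype.piFinset T := by
    intro σ hσ
    rw [Fintype.mem_piFinset]
    intro v
    exact mem_filter.mpr ⟨mem_univ _, fun c hc => (mem_filter.mp hσ).2 _ hc⟩
  have hdm : (dm L).card = L.card := by
    unfold dm
    refine card_image_of_injOn ?_
    rintro ⟨u, b⟩ hu ⟨u', b'⟩ hu' h
    have h' : u = u' := h
    subst h'
    by_cases hb : b = b'
    · rw [hb]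
    · exfalso
      have e1 : b' = !b := by cases b <;> cases b' <;> simp_all
      rw [e1] at hu'
      exact hL u b hu hu'
  have h2 : ∀ v ∈ dm L, (T v).card ≤ 1 := by
    intro v hv
    unfold dm at hv
    obtain ⟨⟨u, c⟩, hc, rfl⟩ := mem_image.mp hv
    rw [card_le_one]
    intro b hb b' hb'
    rw [(mem_filter.mp hb).2 c hc, (mem_filter.mp hb').2 c hc]
  have h3 : ∀ v, (T v).card ≤ 2 := fun v =>
    (card_filter_le _ _).trans (by rw [card_univ, Fintype.card_bool])
  have h4 : ∏ v, (T v).card ≤ ∏ v, (if v ∈ dm L then 1 else 2) := by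
    refine Finset.prod_le_prod' fun v _ => ?_
    by_cases hv : v ∈ dm L
    · rw [if_pos hv]
      exact h2 v hv
    · rw [if_neg hv]
      exact h3 v
  have h5 : (∏ v : Fin n, (if v ∈ dm L then 1 else 2)) * 2 ^ L.card = 2 ^ n := by
    rw [← Finset.prod_filter_mul_prod_filter_not univ (fun v => v ∈ dm L)]
    have e1 : ∏ v ∈ univ.filter (fun v => v ∈ dm L), (if v ∈ dm L then 1 else 2) = 1 :=
      prod_eq_one fun v hv => if_pos (mem_filter.mp hv).2
    have e2 : ∏ v ∈ univ.filter (fun v => ¬ v ∈ dm L), (if v ∈ dm L then 1 else 2) =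
        2 ^ (univ.filter (fun v => ¬ v ∈ dm L)).card := by
      rw [← prod_const]
      exact prod_congr rfl fun v hv => if_neg (mem_filter.mp hv).2
    have e3 : (univ.filter (fun v => ¬ v ∈ dm L)).card + L.card = n := by
      have e4 := card_filter_add_card_filter_not (s := (univ : Finset (Fin n)))
        (fun v => v ∈ dm L)
      rw [card_univ, Fintype.card_fin] at e4
      have e5 : univ.filter (fun v => v ∈ dm L) = dm L := by
        ext v
        simp
      rw [e5, hdm] at e4
      omega
    rw [e1, e2, one_mul, ← pow_add, e3]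
  calc _ ≤ (Fintype.piFinset T).card * 2 ^ L.card := Nat.mul_le_mul_right _ (card_le_card h1)
    _ = (∏ v, (T v).card) * 2 ^ L.card := by rw [Fintype.card_piFinset]
    _ ≤ (∏ v : Fin n, (if v ∈ dm L then 1 else 2)) * 2 ^ L.card := Nat.mul_le_mul_right _ h4
    _ = _ := h5

/-- the pairs -/
private def Ok {n k m : ℕ} (g : Fin m → Fin k → Fin n) (P : Prot n k m) (Q : Finset (Fin m))
    (a : Fin m → Fin k → Bool) (L : Finset (Fin n × Bool)) (β : List Bool)
    (p : (Fin m → Fin k → Bool) × (Fin n → Bool)) : Prop :=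
  ((∀ c ∈ Q, p.1 c = a c) ∧ ∀ c, c ∉ Q → ∃ i, p.2 (g c i) = p.1 c i) ∧
    (walk (mk g p.1) P β L).card = L.card + β.length ∧ Agr p.2 (walk (mk g p.1) P β L)

open Classical in
/-- the count of the pairs -/
private theorem base0 {n k m : ℕ} (g : Fin m → Fin k → Fin n) (Q : Finset (Fin m))
    (a : Fin m → Fin k → Bool) {L : Finset (Fin n × Bool)} (hL : Con L) :
    (univ.filter fun p : (Fin m → Fin k → Bool) × (Fin n → Bool) =>
      ((∀ c ∈ Q, p.1 c = a c) ∧ ∀ c, c ∉ Q → ∃ i, p.2 (g c i) = p.1 c i) ∧ Agr p.2 L).card *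
      (2 ^ L.card * (2 ^ k - 1) ^ Q.card) ≤ 2 ^ n * (2 ^ k - 1) ^ m := by
  classical
  have h1 : (univ.filter fun p : (Fin m → Fin k → Bool) × (Fin n → Bool) =>
      ((∀ c ∈ Q, p.1 c = a c) ∧ ∀ c, c ∉ Q → ∃ i, p.2 (g c i) = p.1 c i) ∧ Agr p.2 L).card ≤
      ∑ σ ∈ univ.filter (fun σ : Fin n → Bool => Agr σ L),
        (univ.filter fun x : Fin m → Fin k → Bool => (∀ c ∈ Q, x c = a c) ∧
          ∀ c, c ∉ Q → ∃ i, σ (g c i) = x c i).card := by
    rw [← card_sigma]
    refine card_le_card_of_injOn (fun p => ⟨p.2, p.1⟩) ?_ ?_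
    · intro p hp
      have hp' := (mem_filter.mp hp).2
      exact mem_coe.mpr (mem_sigma.mpr ⟨mem_filter.mpr ⟨mem_univ _, hp'.2⟩,
        mem_filter.mpr ⟨mem_univ _, hp'.1⟩⟩)
    · rintro ⟨x, σ⟩ _ ⟨x', σ'⟩ _ h
      simp only [Sigma.mk.injEq, heq_eq_eq] at h
      rw [h.1, h.2]
  calc _ ≤ (∑ σ ∈ univ.filter (fun σ : Fin n → Bool => Agr σ L),
        (univ.filter fun x : Fin m → Fin k → Bool => (∀ c ∈ Q, x c = a c) ∧
          ∀ c, c ∉ Q → ∃ i, σ (g c i) = x c i).card) * (2 ^ L.card * (2 ^ k - 1) ^ Q.card) :=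
        Nat.mul_le_mul_right _ h1
    _ = (∑ σ ∈ univ.filter (fun σ : Fin n → Bool => Agr σ L),
        (univ.filter fun x : Fin m → Fin k → Bool => (∀ c ∈ Q, x c = a c) ∧
          ∀ c, c ∉ Q → ∃ i, σ (g c i) = x c i).card * (2 ^ k - 1) ^ Q.card) * 2 ^ L.card := by
        rw [← sum_mul]
        ring
    _ ≤ (∑ σ ∈ univ.filter (fun σ : Fin n → Bool => Agr σ L), (2 ^ k - 1) ^ m) *
          2 ^ L.card := Nat.mul_le_mul_right _ (sum_le_sum fun σ _ => pat g Q a σ)
    _ = ((univ.filter fun σ : Fin n → Bool => Agr σ L).card * 2 ^ L.card) *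
          (2 ^ k - 1) ^ m := by
        rw [sum_const, smul_eq_mul]
        ring
    _ ≤ _ := Nat.mul_le_mul_right _ (ext hL)

open Classical in
/-- the walk stops at once -/
private theorem base1 {n k m : ℕ} (g : Fin m → Fin k → Fin n) (P : Prot n k m)
    (Q : Finset (Fin m)) (a : Fin m → Fin k → Bool) {L : Finset (Fin n × Bool)} (hL : Con L)
    (β : List Bool) (q : ℕ) (hw : ∀ x : Fin m → Fin k → Bool, walk (mk g x) P β L = L) :
    (univ.filter fun p => Ok g P Q a L β p).card *
      (2 ^ (β.length + L.card) * (2 ^ k - 1) ^ (q + Q.card)) ≤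
        2 ^ n * (2 ^ k - 1) ^ m * 2 ^ (k * q) := by
  rcases Nat.eq_zero_or_pos β.length with h0 | h0
  · have h1 : (univ.filter fun p => Ok g P Q a L β p).card ≤
        (univ.filter fun p : (Fin m → Fin k → Bool) × (Fin n → Bool) =>
          ((∀ c ∈ Q, p.1 c = a c) ∧ ∀ c, c ∉ Q → ∃ i, p.2 (g c i) = p.1 c i) ∧
            Agr p.2 L).card := by
      refine card_le_card ?_
      intro p hp
      rw [mem_filter] at hp ⊢
      refine ⟨hp.1, hp.2.1, ?_⟩
      have h2 := hp.2.2.2
      rw [hw] at h2
      exact h2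
    have h2 := base0 g Q a hL
    have h3 : (2 ^ k - 1) ^ q ≤ 2 ^ (k * q) := by
      rw [pow_mul]
      exact Nat.pow_le_pow_left (Nat.sub_le _ _) _
    calc (univ.filter fun p => Ok g P Q a L β p).card *
        (2 ^ (β.length + L.card) * (2 ^ k - 1) ^ (q + Q.card))
        ≤ (univ.filter fun p : (Fin m → Fin k → Bool) × (Fin n → Bool) =>
          ((∀ c ∈ Q, p.1 c = a c) ∧ ∀ c, c ∉ Q → ∃ i, p.2 (g c i) = p.1 c i) ∧
            Agr p.2 L).card * (2 ^ (β.length + L.card) * (2 ^ k - 1) ^ (q + Q.card)) :=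
          Nat.mul_le_mul_right _ h1
      _ = ((univ.filter fun p : (Fin m → Fin k → Bool) × (Fin n → Bool) =>
          ((∀ c ∈ Q, p.1 c = a c) ∧ ∀ c, c ∉ Q → ∃ i, p.2 (g c i) = p.1 c i) ∧
            Agr p.2 L).card * (2 ^ L.card * (2 ^ k - 1) ^ Q.card)) * (2 ^ k - 1) ^ q := by
          rw [h0, zero_add, pow_add]
          ring
      _ ≤ (2 ^ n * (2 ^ k - 1) ^ m) * 2 ^ (k * q) := Nat.mul_le_mul h2 h3
  · have h1 : (univ.filter fun p => Ok g P Q a L β p) = ∅ := by
      rw [filter_eq_empty_iff]
      intro p _ hp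
      have h2 := hp.2.1
      rw [hw] at h2
      omega
    rw [h1, card_empty, zero_mul]
    exact Nat.zero_le _

open Classical in
private theorem main' {n k m : ℕ} (g : Fin m → Fin k → Fin n) : ∀ (P : Prot n k m)
    (Q : Finset (Fin m)) (a : Fin m → Fin k → Bool) (L : Finset (Fin n × Bool)) (β : List Bool)
    (q : ℕ), Con L → Reads P q → (univ.filter fun p => Ok g P Q a L β p).card *
      (2 ^ (β.length + L.card) * (2 ^ k - 1) ^ (q + Q.card)) ≤
        2 ^ n * (2 ^ k - 1) ^ m * 2 ^ (k * q) := by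
  intro P
  induction P with
  | leaf =>
    intro Q a L β q hL _
    exact base1 g _ Q a hL β q fun x => rfl
  | read c f ih =>
    intro Q a L β q hL hq
    obtain ⟨hq1, hq2⟩ := hq
    obtain ⟨q', rfl⟩ : ∃ q', q = q' + 1 := ⟨q - 1, by omega⟩
    rw [Nat.add_sub_cancel] at hq2
    have hexp : 2 ^ (k * (q' + 1)) = 2 ^ (k * q') * 2 ^ k := by
      rw [← pow_add]
      congr 1
    by_cases hc : c ∈ Q
    · have h1 : (univ.filter fun p => Ok g (Prot.read c f) Q a L β p).card ≤
          (univ.filter fun p => Ok g (f (a c)) Q a L β p).card := by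
        refine card_le_card ?_
        intro p hp
        rw [mem_filter] at hp ⊢
        refine ⟨hp.1, hp.2.1, ?_⟩
        have h2 : walk (mk g p.1) (Prot.read c f) β L = walk (mk g p.1) (f (p.1 c)) β L := rfl
        have h3 := hp.2.2
        rw [h2, hp.2.1.1 c hc] at h3
        exact h3
      have h2 := ih (a c) Q a L β q' hL (hq2 _)
      have h3 : 2 ^ k - 1 ≤ 2 ^ k := Nat.sub_le _ _
      calc (univ.filter fun p => Ok g (Prot.read c f) Q a L β p).card *
          (2 ^ (β.length + L.card) * (2 ^ k - 1) ^ (q' + 1 + Q.card))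
          ≤ (univ.filter fun p => Ok g (f (a c)) Q a L β p).card *
          (2 ^ (β.length + L.card) * (2 ^ k - 1) ^ (q' + 1 + Q.card)) :=
            Nat.mul_le_mul_right _ h1
        _ = ((univ.filter fun p => Ok g (f (a c)) Q a L β p).card *
          (2 ^ (β.length + L.card) * (2 ^ k - 1) ^ (q' + Q.card))) * (2 ^ k - 1) := by
            rw [show q' + 1 + Q.card = (q' + Q.card) + 1 by ring, pow_succ]
            ring
        _ ≤ (2 ^ n * (2 ^ k - 1) ^ m * 2 ^ (k * q')) * 2 ^ k := Nat.mul_le_mul h2 h3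
        _ = _ := by rw [hexp]; ring
    · have h1 : (univ.filter fun p => Ok g (Prot.read c f) Q a L β p).card ≤
          ∑ b : Fin k → Bool, (univ.filter fun p =>
            Ok g (f b) (insert c Q) (Function.update a c b) L β p).card := by
        refine (card_le_card ?_).trans card_biUnion_le
        intro p hp
        rw [mem_biUnion]
        refine ⟨p.1 c, mem_univ _, ?_⟩
        rw [mem_filter] at hp ⊢
        refine ⟨hp.1, ⟨?_, ?_⟩, hp.2.2⟩
        · intro c' hc'
          rcases mem_insert.mp hc' with rfl | h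
          · rw [Function.update_self]
          · rw [Function.update_of_ne (fun e => hc (by rw [← e]; exact h))]
            exact hp.2.1.1 c' h
        · intro c' hc'
          exact hp.2.1.2 c' fun h => hc' (mem_insert_of_mem h)
      have h2 : ∀ b : Fin k → Bool, (univ.filter fun p =>
          Ok g (f b) (insert c Q) (Function.update a c b) L β p).card *
          (2 ^ (β.length + L.card) * (2 ^ k - 1) ^ (q' + 1 + Q.card)) ≤
          2 ^ n * (2 ^ k - 1) ^ m * 2 ^ (k * q') := by
        intro b
        have h3 := ih b (insert c Q) (Function.update a c b) L β q' hL (hq2 _)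
        rw [card_insert_of_notMem hc] at h3
        rw [show q' + 1 + Q.card = q' + (Q.card + 1) by ring]
        exact h3
      calc (univ.filter fun p => Ok g (Prot.read c f) Q a L β p).card *
          (2 ^ (β.length + L.card) * (2 ^ k - 1) ^ (q' + 1 + Q.card))
          ≤ (∑ b : Fin k → Bool, (univ.filter fun p =>
            Ok g (f b) (insert c Q) (Function.update a c b) L β p).card) *
          (2 ^ (β.length + L.card) * (2 ^ k - 1) ^ (q' + 1 + Q.card)) :=
            Nat.mul_le_mul_right _ h1
        _ = ∑ b : Fin k → Bool, (univ.filter fun p =>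
            Ok g (f b) (insert c Q) (Function.update a c b) L β p).card *
          (2 ^ (β.length + L.card) * (2 ^ k - 1) ^ (q' + 1 + Q.card)) := sum_mul _ _ _
        _ ≤ ∑ _b : Fin k → Bool, 2 ^ n * (2 ^ k - 1) ^ m * 2 ^ (k * q') :=
            sum_le_sum fun b _ => h2 b
        _ = _ := by
            rw [sum_const, card_univ, Fintype.card_fun, Fintype.card_bool, Fintype.card_fin,
              smul_eq_mul, hexp]
            ring
  | node v a' f ih =>
    intro Q a L β q hL hq
    -- the variable has a value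
    have hmem : ∀ b, (v, b) ∈ L → (∀ x : Fin m → Fin k → Bool,
        walk (mk g x) (Prot.node v a' f) β L = walk (mk g x) (f b) β L) →
        (univ.filter fun p => Ok g (Prot.node v a' f) Q a L β p).card *
      (2 ^ (β.length + L.card) * (2 ^ k - 1) ^ (q + Q.card)) ≤
        2 ^ n * (2 ^ k - 1) ^ m * 2 ^ (k * q) := by
      intro b _ hw
      refine le_trans (Nat.mul_le_mul_right _ (card_le_card ?_)) (ih b Q a L β q hL (hq b))
      intro p hp
      rw [mem_filter] at hp ⊢
      refine ⟨hp.1, hp.2.1, ?_⟩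
      have h3 := hp.2.2
      rw [hw] at h3
      exact h3
    by_cases h1 : (v, true) ∈ L
    · refine hmem true h1 fun x => ?_
      conv_lhs => unfold walk
      rw [if_pos h1]
    · by_cases h2 : (v, false) ∈ L
      · refine hmem false h2 fun x => ?_
        conv_lhs => unfold walk
        rw [if_neg h1, if_pos h2]
      · cases β with
        | nil =>
          refine base1 g _ Q a hL [] q fun x => ?_
          unfold walk
          rw [if_neg h1, if_neg h2]
        | cons b0 β' =>
          have hall : ∀ c, (v, c) ∉ L := by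
            intro c
            cases c
            · exact h2
            · exact h1
          have hw : ∀ x : Fin m → Fin k → Bool, walk (mk g x) (Prot.node v a' f) (b0 :: β') L =
              walk (mk g x) (f (xor a' b0)) β' (insert (v, xor a' b0) L) := by
            intro x
            conv_lhs => unfold walk
            rw [if_neg h1, if_neg h2]
          have hcard : (insert (v, xor a' b0) L).card = L.card + 1 :=
            card_insert_of_notMem (hall _)
          have h3 := ih (xor a' b0) Q a (insert (v, xor a' b0) L) β' q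
            (con_insert' hL (hall _)) (hq _)
          rw [hcard] at h3
          rw [List.length_cons, show β'.length + 1 + L.card = β'.length + (L.card + 1) by ring]
          refine le_trans (Nat.mul_le_mul_right _ (card_le_card ?_)) h3
          intro p hp
          rw [mem_filter] at hp ⊢
          refine ⟨hp.1, hp.2.1, ?_⟩
          have h4 := hp.2.2
          rw [hw, List.length_cons] at h4
          refine ⟨?_, h4.2⟩
          rw [hcard]
          omega

open Classical in
theorem pf_KEY : T_KEY := by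
  intro n k m g P q β hq
  have hcon : Con (∅ : Finset (Fin n × Bool)) := fun v b h => absurd h (notMem_empty _)
  have h1 := main' g P ∅ (fun _ _ => false) ∅ β q hcon hq
  rw [card_empty, card_empty, add_zero, add_zero] at h1
  refine le_trans (Nat.mul_le_mul_right _ (card_le_card ?_)) h1
  intro p hp
  rw [mem_filter] at hp ⊢
  refine ⟨hp.1, ⟨fun c hc => absurd hc (notMem_empty _), fun c _ => hp.2.1 c⟩, ?_, hp.2.2.2⟩
  rw [hp.2.2.1, card_empty, zero_add]

end Pool.Agent.H63.PL
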