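import Pool.Agent.H47.PL.Targets2

/-!
# Row LST: one step of the local search (helper63)
-/

set_option autoImplicit false

namespace Pool.Agent.H63.PL

open Finset Pool.Agent.H97.RK Pool.Agent.H47.PL

private theorem flp_self {n : ℕ} (y : Fin n → Bool) (v : Fin n) : flp y v v = !y v := by
  unfold flp
  exact Function.update_self _ _ _

private theorem flp_ne {n : ℕ} (y : Fin n → Bool) {v u : Fin n} (h : u ≠ v) :
    flp y v u = y u := by
  unfold flp
  exact Function.update_of_ne h _ _

private theorem dst_in {n : ℕ} {y z : Fin n → Bool} {v : Fin n} (h : y v ≠ z v) :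
    dst (flp y v) z = dst y z - 1 := by
  unfold dst
  rw [← card_erase_of_mem (mem_filter.mpr ⟨mem_univ v, h⟩)]
  congr 1
  ext u
  rw [mem_erase, mem_filter, mem_filter]
  by_cases huv : u = v
  · subst huv
    rw [flp_self]
    constructor
    · rintro ⟨_, h1⟩
      exfalso
      revert h h1
      cases y u <;> cases z u <;> decide
    · rintro ⟨h1, _⟩
      exact absurd rfl h1
  · rw [flp_ne y huv]
    exact ⟨fun h1 => ⟨huv, h1⟩, fun h1 => h1.2⟩

private theorem dst_out {n : ℕ} {y z : Fin n → Bool} {v : Fin n} (h : ¬ y v ≠ z v) :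
    dst (flp y v) z = dst y z + 1 := by
  unfold dst
  rw [← card_insert_of_notMem (s := univ.filter fun u => y u ≠ z u) (a := v)
    (fun h1 => h (mem_filter.mp h1).2)]
  congr 1
  ext u
  rw [mem_insert, mem_filter, mem_filter]
  by_cases huv : u = v
  · subst huv
    rw [flp_self]
    constructor
    · intro _
      exact Or.inl rfl
    · intro _
      refine ⟨mem_univ _, ?_⟩
      revert h
      cases y u <;> cases z u <;> decide
  · rw [flp_ne y huv]
    constructor
    · intro h1
      exact Or.inr h1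
    · rintro (h1 | h1)
      · exact absurd h1 huv
      · exact h1

private theorem inner {n k m : ℕ} (F : Fml n k m) (c : Fin m) (y z : Fin n → Bool) (hk : 1 ≤ k)
    (f : ℕ → ℝ) :
    (∑ i, f (dst (flp y (F c i).1) z)) / k =
      (inn F c (univ.filter fun u => y u ≠ z u) : ℝ) / k * f (dst y z - 1) +
      (1 - (inn F c (univ.filter fun u => y u ≠ z u) : ℝ) / k) * f (dst y z + 1) := by
  have hk0 : (k : ℝ) ≠ 0 := by
    have : k ≠ 0 := by omega
    exact_mod_cast this
  have h1 : ∑ i, f (dst (flp y (F c i).1) z) =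
      ∑ i, (if (F c i).1 ∈ univ.filter (fun u => y u ≠ z u) then
        f (dst y z - 1) - f (dst y z + 1) else 0) + ∑ _i : Fin k, f (dst y z + 1) := by
    rw [← sum_add_distrib]
    refine sum_congr rfl fun i _ => ?_
    by_cases h : y (F c i).1 ≠ z (F c i).1
    · have hm : (F c i).1 ∈ univ.filter (fun u => y u ≠ z u) := mem_filter.mpr ⟨mem_univ _, h⟩
      rw [dst_in h, if_pos hm]
      ring
    · have hm : (F c i).1 ∉ univ.filter (fun u => y u ≠ z u) := fun h1 => h (mem_filter.mp h1).2
      rw [dst_out h, if_neg hm]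
      ring
  rw [h1, ← sum_filter, sum_const, sum_const, card_univ, Fintype.card_fin, nsmul_eq_mul,
    nsmul_eq_mul]
  unfold inn
  field_simp
  ring

theorem pf_LST : T_LST := by
  classical
  intro n k m F α Γ Γ' B a b hk hα hΓ' hΓ hL hph y z q hy hz hq hc
  obtain ⟨D, hD⟩ : ∃ D : Finset (Fin n), D = univ.filter fun u => y u ≠ z u := ⟨_, rfl⟩
  have hDc : D.card = dst y z := by rw [hD]; rfl
  have hd : 1 ≤ dst y z := by
    rw [← hDc, Nat.one_le_iff_ne_zero]
    intro h0
    apply hy
    have h1 : y = z := by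
      funext u
      by_contra h
      have h2 : u ∈ D := by
        rw [hD]
        exact mem_filter.mpr ⟨mem_univ _, h⟩
      rw [card_eq_zero.mp h0] at h2
      exact notMem_empty _ h2
    rw [h1]
    exact hz
  have hk0 : (0 : ℝ) < k := by exact_mod_cast hk
  have hr0 : ∀ c, 0 ≤ (inn F c D : ℝ) / k := fun c => by positivity
  have hr1 : ∀ c, (inn F c D : ℝ) / k ≤ 1 := by
    intro c
    rw [div_le_one hk0]
    have h1 : inn F c D ≤ k := by
      unfold inn
      exact (card_filter_le _ _).trans (by rw [card_univ, Fintype.card_fin])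
    exact_mod_cast h1
  obtain ⟨p, hp⟩ : ∃ p : ℝ, p = ∑ c, q c * ((inn F c D : ℝ) / k) := ⟨_, rfl⟩
  have hp0 : 0 ≤ p := by
    rw [hp]
    exact sum_nonneg fun c _ => mul_nonneg (hc c).1 (hr0 c)
  have hp1 : p ≤ 1 := by
    rw [hp, ← hq]
    exact sum_le_sum fun c _ => mul_le_of_le_one_right (hc c).1 (hr1 c)
  have hVpos : (0 : ℝ) < (vio F y).card := by
    have := (hL.low y hy).card_pos
    exact_mod_cast this
  obtain ⟨E, hE⟩ : ∃ E : Finset (Fin m), E = (vio F y).filter fun c =>
    ((D.card : ℝ) / n + α) * k < inn F c D := ⟨_, rfl⟩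
  have hEc : (Γ' : ℝ) * E.card ≤ (vio F y).card := by
    have := hL.exc y hy D
    rw [← hE] at this
    exact_mod_cast this
  have hEα : ∑ c ∈ E, q c ≤ α := by
    have h1 : (∑ c ∈ E, q c) * (vio F y).card ≤ α * (vio F y).card := by
      calc (∑ c ∈ E, q c) * (vio F y).card = ∑ c ∈ E, q c * (vio F y).card := by rw [sum_mul]
        _ ≤ ∑ _c ∈ E, Γ := sum_le_sum fun c _ => (hc c).2.2
        _ = E.card * Γ := by rw [sum_const, nsmul_eq_mul]
        _ ≤ E.card * (α * Γ') := mul_le_mul_of_nonneg_left hΓ (Nat.cast_nonneg _)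
        _ = α * (Γ' * E.card) := by ring
        _ ≤ α * (vio F y).card := mul_le_mul_of_nonneg_left hEc hα.le
    exact le_of_mul_le_mul_right h1 hVpos
  have hdn : 0 ≤ (dst y z : ℝ) / n + α := by positivity
  have hp2 : p ≤ (dst y z : ℝ) / n + 2 * α := by
    have h1 : ∀ c, q c * ((inn F c D : ℝ) / k) ≤
        (if c ∈ E then q c else 0) + ((dst y z : ℝ) / n + α) * q c := by
      intro c
      by_cases hcE : c ∈ E
      · rw [if_pos hcE]
        have h2 := mul_le_of_le_one_right (hc c).1 (hr1 c)
        have h3 := mul_nonneg hdn (hc c).1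
        linarith
      · rw [if_neg hcE, zero_add]
        by_cases hcV : c ∈ vio F y
        · have h2 : (inn F c D : ℝ) ≤ ((dst y z : ℝ) / n + α) * k := by
            by_contra h3
            apply hcE
            rw [hE]
            refine mem_filter.mpr ⟨hcV, ?_⟩
            rw [hDc]
            exact not_le.mp h3
          have h3 : (inn F c D : ℝ) / k ≤ (dst y z : ℝ) / n + α := by
            rw [div_le_iff₀ hk0]
            exact h2
          calc q c * ((inn F c D : ℝ) / k) ≤ q c * ((dst y z : ℝ) / n + α) :=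
                mul_le_mul_of_nonneg_left h3 (hc c).1
            _ = _ := by ring
        · rw [(hc c).2.1 hcV]
          simp
    calc p = ∑ c, q c * ((inn F c D : ℝ) / k) := hp
      _ ≤ ∑ c, ((if c ∈ E then q c else 0) + ((dst y z : ℝ) / n + α) * q c) :=
          sum_le_sum fun c _ => h1 c
      _ = ∑ c ∈ E, q c + ((dst y z : ℝ) / n + α) * ∑ c, q c := by
          rw [sum_add_distrib, ← mul_sum, ← sum_filter]
          congr 2
          ext c
          simp
      _ ≤ α + ((dst y z : ℝ) / n + α) * 1 := by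
          rw [hq]
          linarith
      _ = _ := by ring
  have hmain := hph (dst y z) p hd hp0 hp1 hp2
  have hsum : ∑ c, q c * ((∑ i, ph n a b (dst (flp y (F c i).1) z)) / k) =
      p * ph n a b (dst y z - 1) + (1 - p) * ph n a b (dst y z + 1) := by
    have h1 : ∀ c, q c * ((∑ i, ph n a b (dst (flp y (F c i).1) z)) / k) =
        q c * ((inn F c D : ℝ) / k) * ph n a b (dst y z - 1) +
          (q c - q c * ((inn F c D : ℝ) / k)) * ph n a b (dst y z + 1) := by
      intro c
      rw [inner F c y z hk (ph n a b), ← hD]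
      ring
    rw [sum_congr rfl fun c _ => h1 c, sum_add_distrib, ← sum_mul, ← sum_mul,
      sum_sub_distrib, ← hp, hq]
  rw [hsum]
  exact hmain

end Pool.Agent.H63.PL
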