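import Pool.Agent.H47.PL.Targets

/-!
# Row WLK: success gives a walk with few second values (helper63)
-/

set_option autoImplicit false

namespace Pool.Agent.H63.PL

open Finset Pool.Agent.H97.RK Pool.Agent.H47.PL

private theorem con_insert {n : ℕ} {L : Finset (Fin n × Bool)} {v : Fin n} {b : Bool} (h : Con L)
    (hv : (v, !b) ∉ L) : Con (insert (v, b) L) := by
  intro u c hc hc'
  rw [mem_insert] at hc hc'
  rcases hc with hc | hc
  · rw [Prod.mk.injEq] at hc
    obtain ⟨rfl, rfl⟩ := hc
    rcases hc' with hc' | hc'
    · rw [Prod.mk.injEq] at hc'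
      cases c <;> simp at hc'
    · exact hv hc'
  · rcases hc' with hc' | hc'
    · rw [Prod.mk.injEq] at hc'
      obtain ⟨rfl, h2⟩ := hc'
      have h3 : c = !b := by rw [← h2, Bool.not_not]
      rw [h3] at hc
      exact hv hc
    · exact h u c hc hc'

private theorem mem_dm {n : ℕ} {L : Finset (Fin n × Bool)} {v : Fin n} :
    v ∈ dm L ↔ ∃ b, (v, b) ∈ L := by
  unfold dm
  rw [mem_image]
  constructor
  · rintro ⟨⟨u, b⟩, h, rfl⟩
    exact ⟨b, h⟩
  · rintro ⟨b, h⟩
    exact ⟨(v, b), h, rfl⟩

/-- success gives a solution -/
private theorem findD_sat {n k m : ℕ} {F : Fml n k m} {Ex : Finset (Fin n × Bool) → Prop} :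
    ∀ (P : Prot n k m) (L : Finset (Fin n × Bool)), Con L → FindD F Ex P L →
      ∃ τ, Sat F τ ∧ Agr τ L := by
  intro P
  induction P with
  | leaf =>
    intro L hL h
    refine ⟨fun v => decide ((v, true) ∈ L), ?_, ?_⟩
    · intro c
      obtain ⟨i, hi⟩ := h.1 c
      refine ⟨i, ?_⟩
      cases hb : (F c i).2
      · have h1 : ((F c i).1, true) ∉ L := by
          have h2 := hL (F c i).1 (F c i).2 hi
          rw [hb] at h2
          exact h2
        simp [h1]
      · have h1 : ((F c i).1, true) ∈ L := by
          rw [← hb]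
          exact hi
        simp [h1]
    · rintro ⟨v, b⟩ hl
      cases b
      · have h1 : (v, true) ∉ L := hL v false hl
        simp [h1]
      · simp [hl]
  | read c f ih =>
    intro L hL h
    exact ih _ L hL h
  | node v a f ih =>
    intro L hL h
    obtain ⟨b, hb, -, hf⟩ := h
    obtain ⟨τ, h1, h2⟩ := ih b _ (con_insert hL hb) hf
    exact ⟨τ, h1, fun l hl => h2 l (mem_insert_of_mem hl)⟩

private theorem walk_nil {n k m : ℕ} (F : Fml n k m) : ∀ (P : Prot n k m)
    (L : Finset (Fin n × Bool)), walk F P [] L = L := by
  intro P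
  induction P with
  | leaf => intro L; rfl
  | read c f ih => intro L; exact ih _ L
  | node v a f ih =>
    intro L
    unfold walk
    split_ifs
    · exact ih _ L
    · exact ih _ L
    · rfl

private theorem walk_mem {n k m : ℕ} (F : Fml n k m) {v : Fin n} {b : Bool} (a : Bool)
    (f : Bool → Prot n k m) (β : List Bool) {L : Finset (Fin n × Bool)} (h : (v, b) ∈ L)
    (h' : (v, !b) ∉ L) : walk F (Prot.node v a f) β L = walk F (f b) β L := by
  conv_lhs => unfold walk
  cases b
  · have h1 : (v, true) ∉ L := h'
    rw [if_neg h1, if_pos h]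
  · rw [if_pos h]

private theorem walk_new {n k m : ℕ} (F : Fml n k m) {v : Fin n} (a c : Bool)
    (f : Bool → Prot n k m) (β : List Bool) {L : Finset (Fin n × Bool)} (h : v ∉ dm L) :
    walk F (Prot.node v a f) (c :: β) L = walk F (f (xor a c)) β (insert (v, xor a c) L) := by
  conv_lhs => unfold walk
  have h1 : (v, true) ∉ L := fun hc => h (mem_dm.mpr ⟨_, hc⟩)
  have h2 : (v, false) ∉ L := fun hc => h (mem_dm.mpr ⟨_, hc⟩)
  rw [if_neg h1, if_neg h2]

private theorem main {n k m : ℕ} {F : Fml n k m} {D e : ℕ} {Ex : Finset (Fin n × Bool) → Prop}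
    {Res : Finset (Fin n × Bool) → Finset (Fin n) → Prop} (hR : Rsv F D e Ex Res) (hD : D ≤ n) :
    ∀ (P : Prot n k m) (L : Finset (Fin n × Bool)) (W : Finset (Fin n)), Con L → Res L W →
      L.card ≤ D → FindD F Ex P L → ∃ β : List Bool, L.card + β.length = D ∧
        β.count true + (dm L ∩ W).card ≤ e ∧ (walk F P β L).card = D ∧
        ∃ τ, Sat F τ ∧ Agr τ (walk F P β L) := by
  -- the case of a full set
  have base : ∀ (P : Prot n k m) (L : Finset (Fin n × Bool)) (W : Finset (Fin n)), Con L →
      Res L W → L.card = D → FindD F Ex P L → ∃ β : List Bool, L.card + β.length = D ∧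
        β.count true + (dm L ∩ W).card ≤ e ∧ (walk F P β L).card = D ∧
        ∃ τ, Sat F τ ∧ Agr τ (walk F P β L) := by
    intro P L W hL hW hc hf
    refine ⟨[], by simpa using hc, ?_, by rw [walk_nil, hc], ?_⟩
    · have h1 : (dm L ∩ W).card ≤ W.card := card_le_card inter_subset_right
      have h2 := hR.card L W hW
      simp
      omega
    · rw [walk_nil]
      exact findD_sat P L hL hf
  intro P
  induction P with
  | leaf =>
    intro L W hL hW hc hf
    rcases hc.eq_or_lt with h | h
    · exact base _ L W hL hW h hf
    · exfalso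
      have h1 : (univ : Finset (Fin n)) ⊆ dm L := fun v _ => hf.2 v
      have h2 := card_le_card h1
      rw [card_univ, Fintype.card_fin] at h2
      have h3 : (dm L).card ≤ L.card := card_image_le
      omega
  | read c f ih =>
    intro L W hL hW hc hf
    exact ih _ L W hL hW hc hf
  | node v a f ih =>
    intro L W hL hW hc hf
    rcases hc.eq_or_lt with h | h
    · exact base _ L W hL hW h hf
    · obtain ⟨b, hb, hor, hfb⟩ := hf
      by_cases hv : v ∈ dm L
      · have hbL : (v, b) ∈ L := by
          obtain ⟨c, hcL⟩ := mem_dm.mp hv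
          by_cases hcb : c = b
          · rw [hcb] at hcL
            exact hcL
          · have h1 : c = !b := by cases c <;> cases b <;> simp_all
            rw [h1] at hcL
            exact absurd hcL hb
        rw [insert_eq_self.mpr hbL] at hfb
        obtain ⟨β, h1, h2, h3, τ, h4, h5⟩ := ih b L W hL hW hc hfb
        have hw := walk_mem F a f β hbL hb
        exact ⟨β, h1, h2, by rw [hw]; exact h3, τ, h4, by rw [hw]; exact h5⟩
      · have hL' := con_insert hL hb
        obtain ⟨τ, hτ1, hτ2⟩ := findD_sat (f b) _ hL' hfb
        obtain ⟨W', hWW, hW'⟩ := hR.step L W v b τ hW h hv hτ1 hτ2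
        have hbL : (v, b) ∉ L := fun hc => hv (mem_dm.mpr ⟨_, hc⟩)
        have hcard : (insert (v, b) L).card = L.card + 1 := card_insert_of_notMem hbL
        obtain ⟨β, h1, h2, h3, τ', h4, h5⟩ := ih b _ W' hL' hW' (by omega) hfb
        have hx : xor a (xor a b) = b := by cases a <;> cases b <;> rfl
        have hw := walk_new F a (xor a b) f β hv
        rw [hx] at hw
        have hsub : dm L ⊆ dm (insert (v, b) L) := by
          intro u hu
          obtain ⟨c, hcu⟩ := mem_dm.mp hu
          exact mem_dm.mpr ⟨c, mem_insert_of_mem hcu⟩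
        refine ⟨xor a b :: β, ?_, ?_, by rw [hw]; exact h3, τ', h4, by rw [hw]; exact h5⟩
        · rw [List.length_cons]
          omega
        · by_cases hab : a = b
          · have h6 : xor a b = false := by rw [hab]; cases b <;> rfl
            rw [h6, List.count_cons_of_ne (by simp)]
            have h7 : (dm L ∩ W).card ≤ (dm (insert (v, b) L) ∩ W').card :=
              card_le_card (inter_subset_inter hsub hWW)
            omega
          · have h6 : xor a b = true := by cases a <;> cases b <;> simp_all
            rw [h6, List.count_cons_self]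
            have hvW : v ∈ W := by
              by_contra hvW
              rcases hor with h7 | h7 | h7
              · exact hbL h7
              · exact hab h7
              · exact hR.free L W v b τ hW h hv hvW hτ1 hτ2 h7
            have h7 : insert v (dm L ∩ W) ⊆ dm (insert (v, b) L) ∩ W' := by
              intro u hu
              rw [mem_insert, mem_inter] at hu
              rw [mem_inter]
              rcases hu with rfl | ⟨hu1, hu2⟩
              · exact ⟨mem_dm.mpr ⟨b, mem_insert_self _ _⟩, hWW hvW⟩
              · exact ⟨hsub hu1, hWW hu2⟩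
            have h8 := card_le_card h7
            rw [card_insert_of_notMem (fun hc => hv (mem_inter.mp hc).1)] at h8
            omega

theorem pf_WLK : T_WLK := by
  intro n k m F D e Ex Res hR hD P hf
  have hcon : Con (∅ : Finset (Fin n × Bool)) := fun v b h => absurd h (notMem_empty _)
  obtain ⟨β, h1, h2, h3, h4⟩ := main hR hD P ∅ ∅ hcon hR.init (by simp) hf
  refine ⟨β, by simpa using h1, ?_, h3, h4⟩
  omega

end Pool.Agent.H63.PL
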